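import Pool.Agent.Helper9.RC2.Goals
import Pool.Agent.Helper32.RC.CutDown

/-!
# MP_b55b7c_an, packet RC2-NICE: positive matrices of almost constant rank
-/

open scoped ENNReal NNReal InnerProductSpace ComplexOrder
open Filter Topology

attribute [-instance] CStarMatrix.instAlgebra CStarMatrix.instModule CStarMatrix.instSMul
  CStarMatrix.instMulAction CStarMatrix.instDistribMulAction

set_option linter.unusedSectionVars false

noncomputable section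
namespace Pool.Agent.Helper78.RC2.NICE
open RC RC.CutDown
universe u

section
variable {A : Type u} [CStarAlgebra A] [PartialOrder A] [StarOrderedRing A]
variable {ι κ : Type} [Fintype ι] [DecidableEq ι] [Fintype κ] [DecidableEq κ]

/-- `q y* y q ≤ ‖y* y‖ q q`. -/
theorem conj_le_norm (q : CStarMatrix κ κ A) (hq : q.conjTranspose = q)
    (y : CStarMatrix ι κ A) :
    (y * q).conjTranspose * (y * q) ≤ ‖y.conjTranspose * y‖ • (q * q) := by
  have h0 : 0 ≤ y.conjTranspose * y := cm_conj_mul_nonneg y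
  have h1 : y.conjTranspose * y ≤ ‖y.conjTranspose * y‖ • (1 : CStarMatrix κ κ A) := by
    have := h0.isSelfAdjoint.le_algebraMap_norm_self
    rwa [Algebra.algebraMap_eq_smul_one] at this
  have h2 := cm_conj_le q h1
  have h3 : (y * q).conjTranspose * (y * q) = q * (y.conjTranspose * y) * q.conjTranspose := by
    rw [cm_conj_mul, hq, cm_assoc, cm_assoc, ← cm_assoc y.conjTranspose y q]
  rw [h3]
  refine h2.trans (le_of_eq ?_)
  rw [hq, cm_mul_rsmul, cm_mul_one, cm_rsmul_mul]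

/-- A quasitrace coming from a trace is additive. -/
theorem tau_sum (ω : QTrace A) (φ : TState A)
    (h : ∀ (ι : Type) [Fintype ι] [DecidableEq ι] (a : CStarMatrix ι ι A), 0 ≤ a →
      ω.τ ι a = ∑ i, (φ.φ (a i i)).re) {p : ℕ}
    (x : Fin p → CStarMatrix ι ι A) (hx : ∀ k, 0 ≤ x k) :
    ω.τ ι (∑ k, x k) = ∑ k, ω.τ ι (x k) := by
  rw [h ι _ (Finset.sum_nonneg fun k _ => hx k), Finset.sum_congr rfl fun k _ => h ι _ (hx k)]
  rw [Finset.sum_comm]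
  refine Finset.sum_congr rfl fun i _ => ?_
  have : (∑ k, x k) i i = ∑ k, (x k) i i := by
    show (∑ k, x k : Matrix ι ι A) i i = _
    rw [Matrix.sum_apply]
  rw [this, map_sum, Complex.re_sum]

end

theorem t (hSB : SBP.{u}) (hFB : FullBP.{u}) (hRi : RiemP.{u}) (hBlk : BlkP.{u})
    (hMono : QMonoP.{u}) (hBas : QBasicP.{u}) (hLe : CuLeAddP.{u}) : NiceP.{u} := by
  intro A B _ _ _ _ _ _ G _ _ α j hα hj hS hNF hT hTr ρ hρ hComp R η hR hη
  obtain ⟨m0, hm0⟩ := hSB A B G α j hα hj hS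
  have hm : (0 : ℝ) < (m0 : ℝ) + 1 := by positivity
  have hθ : 0 < η / (8 * ((m0 : ℝ) + 1)) := by positivity
  obtain ⟨n, p, c, y, hc0, hc1, hsum, hsm⟩ := hFB A B G α j hα hj hS hNF hT ρ hρ hComp _ hθ
  have hdc : ∀ ω : QTrace B, ω.dim c ≤ η / 8 := by
    intro ω
    obtain ⟨σ, hσ⟩ := hm0 ω
    have h1 := (hσ (Fin n) c hc0).2
    have h2 := hsm σ
    have h3 : (m0 : ℝ) * σ.dim (mp j c) ≤ ((m0 : ℝ) + 1) * (η / (8 * ((m0 : ℝ) + 1))) := by
      have h4 : (m0 : ℝ) * σ.dim (mp j c) ≤ (m0 : ℝ) * (η / (8 * ((m0 : ℝ) + 1))) :=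
        mul_le_mul_of_nonneg_left h2 (Nat.cast_nonneg _)
      nlinarith
    have h5 : ((m0 : ℝ) + 1) * (η / (8 * ((m0 : ℝ) + 1))) = η / 8 := by
      field_simp
    linarith
  set q : CStarMatrix (Fin n) (Fin n) B := cfc Real.sqrt c with hq
  have hqq : q * q = c := sqrt_mul_self' hc0
  have hqs : q.conjTranspose = q := by
    have : IsSelfAdjoint q := cfc_predicate _ _
    exact this.star_eq
  set P : CStarMatrix (Fin n) (Fin n) B := ∑ k, (y k * q).conjTranspose * (y k * q) with hP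
  set K : ℝ := ∑ k, ‖(y k).conjTranspose * y k‖ with hK
  have hP0 : 0 ≤ P := Finset.sum_nonneg fun k _ => cm_conj_mul_nonneg _
  have hPK : P ≤ K • c := by
    rw [hP, hK, Finset.sum_smul]
    refine Finset.sum_le_sum fun k _ => ?_
    have := conj_le_norm q hqs (y k)
    rwa [hqq] at this
  have hK0 : 0 ≤ K := Finset.sum_nonneg fun k _ => norm_nonneg _
  obtain ⟨M, hM1, hMK, hM8⟩ : ∃ M : ℕ, 1 ≤ M ∧ K ≤ M ∧ 8 / η ≤ M := by
    refine ⟨⌈K⌉₊ + ⌈8 / η⌉₊ + 1, by omega, ?_, ?_⟩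
    · have := Nat.le_ceil K
      push_cast
      have h2 : (0 : ℝ) ≤ (⌈8 / η⌉₊ : ℝ) := Nat.cast_nonneg _
      linarith
    · have := Nat.le_ceil (8 / η)
      push_cast
      have h2 : (0 : ℝ) ≤ (⌈K⌉₊ : ℝ) := Nat.cast_nonneg _
      linarith
  have hMp : (0 : ℝ) < M := by exact_mod_cast hM1
  have hMi : (0 : ℝ) ≤ (M : ℝ)⁻¹ := inv_nonneg.2 hMp.le
  set a : CStarMatrix (Fin n) (Fin n) B := (M : ℝ)⁻¹ • P with ha
  have ha0 : 0 ≤ a := smul_nonneg hMi hP0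
  have hac : a ≤ c := by
    have h1 : a ≤ (M : ℝ)⁻¹ • (K • c) := smul_le_smul_of_nonneg_left hPK hMi
    have h2 : (M : ℝ)⁻¹ • (K • c) ≤ (1 : ℝ) • c := by
      rw [smul_smul]
      refine smul_le_smul_of_nonneg_right ?_ hc0
      rw [inv_mul_le_one₀ hMp]
      exact hMK
    rw [one_smul] at h2
    exact h1.trans h2
  have ha1 : a ≤ 1 := hac.trans hc1
  have hda : ∀ ω : QTrace B, ω.dim a ≤ η / 8 := fun ω =>
    (hMono B ω (Fin n) (Fin n) a c ha0 hc0 (cu_of_le hLe ha0 hc0 hac)).trans (hdc ω)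
  have hτ : ∀ ω : QTrace B, ω.τ (Fin n) a = (M : ℝ)⁻¹ := by
    intro ω
    obtain ⟨φ, hφ⟩ := hTr ω
    rw [ha, ω.smul (Fin n) _ P hMi hP0, hP,
      tau_sum ω φ hφ _ fun k => cm_conj_mul_nonneg _]
    have h1 : ∀ k, ω.τ (Fin n) ((y k * q).conjTranspose * (y k * q)) =
        ω.τ Unit (y k * c * (y k).conjTranspose) := by
      intro k
      rw [← ω.trace Unit (Fin n) (y k * q)]
      congr 1
      rw [cm_conj_mul, hqs, cm_assoc, ← cm_assoc q q, hqq, ← cm_assoc]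
    simp_rw [h1]
    rw [← tau_sum ω φ hφ _ fun k => cm_conj_nonneg (y k) hc0, hsum, ω.one, mul_one]
  obtain ⟨T, hT1, hT2, hT3⟩ : ∃ T : ℕ, 0 < T ∧ R + η / 2 ≤ T * (M : ℝ)⁻¹ ∧
      T * (M : ℝ)⁻¹ ≤ R + 3 * η / 4 := by
    have hpos : 0 < (M : ℝ) * (R + η / 2) := by positivity
    refine ⟨⌈(M : ℝ) * (R + η / 2)⌉₊, Nat.ceil_pos.2 hpos, ?_, ?_⟩
    · have h1 := Nat.le_ceil ((M : ℝ) * (R + η / 2))
      have h2 : (M : ℝ) * (R + η / 2) * (M : ℝ)⁻¹ ≤ ⌈(M : ℝ) * (R + η / 2)⌉₊ * (M : ℝ)⁻¹ :=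
        mul_le_mul_of_nonneg_right h1 hMi
      have h3 : (M : ℝ) * (R + η / 2) * (M : ℝ)⁻¹ = R + η / 2 := by
        field_simp
      linarith
    · have h1 := (Nat.ceil_lt_add_one hpos.le).le
      have h2 : ⌈(M : ℝ) * (R + η / 2)⌉₊ * (M : ℝ)⁻¹ ≤ ((M : ℝ) * (R + η / 2) + 1) * (M : ℝ)⁻¹ :=
        mul_le_mul_of_nonneg_right h1 hMi
      have h3 : ((M : ℝ) * (R + η / 2) + 1) * (M : ℝ)⁻¹ = R + η / 2 + (M : ℝ)⁻¹ := by
        field_simp
      have h4 : (M : ℝ)⁻¹ ≤ η / 8 := by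
        rw [div_le_iff₀ hη] at hM8
        rw [inv_le_iff_one_le_mul₀ hMp]
        linarith
      linarith
  have hTp : (0 : ℝ) < T := by exact_mod_cast hT1
  obtain ⟨N, z, hz0, hz⟩ := hBlk B n T (fun i => cut a (((i : ℝ) + 1) / T))
    (fun i => cut_nonneg _ _)
  have hgp : (0 : ℝ) < 1 / T := by positivity
  refine ⟨N, z, 1 / T, hz0, hgp, fun ω => ?_⟩
  obtain ⟨hz1, hz2⟩ := hz ω
  obtain ⟨hr1, hr2⟩ := hRi B ω (Fin n) a T ha0 ha1 hT1
  rw [hτ ω] at hr1 hr2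
  constructor
  · rw [hz2 (1 / T) hgp]
    have hnn : ∀ s : ℝ, 0 ≤ ω.dim (cut a s) := fun s => (hBas B ω (Fin n) _ (cut_nonneg a s)).2.1
    have hle : ∀ s : ℝ, 0 ≤ s → ω.dim (cut a s) ≤ η / 8 := fun s hs =>
      (hMono B ω (Fin n) (Fin n) _ a (cut_nonneg a s) ha0 (cu_cut hLe ha0 hs)).trans (hda ω)
    have h1 : ∀ i : ℕ, ω.dim (cut (cut a (((i : ℝ) + 1) / T)) (1 / T)) =
        ω.dim (cut a (((i + 2 : ℕ) : ℝ) / T)) := by
      intro i
      rw [cut_cut ha0.isSelfAdjoint hgp.le]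
      congr 2
      push_cast
      ring
    simp_rw [h1]
    have h2 : ∑ i ∈ Finset.range T, ω.dim (cut a ((i : ℝ) / T)) ≤
        ∑ i ∈ Finset.range (T + 2), ω.dim (cut a ((i : ℝ) / T)) :=
      Finset.sum_le_sum_of_subset_of_nonneg
        (Finset.range_mono (by omega)) fun i _ _ => hnn _
    rw [Finset.sum_range_succ', Finset.sum_range_succ'] at h2
    have h3 := hle (((0 : ℕ) : ℝ) / T) (by positivity)
    have h4 := hle (((0 + 1 : ℕ) : ℝ) / T) (by positivity)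
    have h5 : ∑ i ∈ Finset.range T, ω.dim (cut a (((i + 1 + 1 : ℕ) : ℝ) / T)) =
        ∑ i ∈ Finset.range T, ω.dim (cut a (((i + 2 : ℕ) : ℝ) / T)) := rfl
    rw [h5] at h2
    linarith
  · rw [hz1]
    linarith

end Pool.Agent.Helper78.RC2.NICE
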